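import Pool.Agent.U29.DZ.Stm

set_option autoImplicit false

/-!
# Project DZ, package PRBx: from the environment to the annealed chain, position dependent laws

Adapted from `Pool/Agent/U898/CY/PRC.lean` and `Pool/Agent/U511/RP/PRB.lean`.
-/

namespace Pool.Agent.U770.DZ

open Finset MeasureTheory Filter Pool.Agent.U762.RP Pool.Agent.U29.DZ

theorem Qx_nonneg (d : ℕ) (m r : ℤ → ℤ) (w : ℤ → ℤ → ℝ) (hw : ∀ x u, 0 ≤ w x u) (B : ℕ) (M Y : ℝ)
    (F : ℤ → ℝ) (hF : ∀ x, 0 ≤ F x) (x : ℤ) : 0 ≤ Qx d m r w B M Y F x := by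
  unfold Qx
  split_ifs
  · exact Finset.sum_nonneg fun u _ => mul_nonneg (hw x u) (hF _)
  · exact le_refl _

theorem iter_nonneg (d : ℕ) (m r : ℤ → ℤ) (w : ℤ → ℤ → ℝ) (hw : ∀ x u, 0 ≤ w x u) (B : ℕ) (M Y : ℝ)
    (S : Set ℤ) (L : ℕ) (x : ℤ) :
    0 ≤ (Qx d m r w B M Y)^[L] (S.indicator fun _ => 1) x := by
  induction L generalizing x with
  | zero =>
    show 0 ≤ S.indicator (fun _ => (1 : ℝ)) x
    exact Set.indicator_nonneg (fun _ _ => zero_le_one) x
  | succ L ih =>
    rw [Function.iterate_succ_apply']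
    exact Qx_nonneg d m r w hw B M Y _ ih x

/-- the event -/
def Ev (d : ℕ) (m r : ℤ → ℤ) (M Y : ℝ) (S : Set ℤ) (L : ℕ) (A : Finset ℤ) (v : ℤ → ℤ) (x : ℤ) :
    Set (ℤ → ℤ) :=
  {ω | (∀ a ∈ A, ω a = v a) ∧ (∀ i : ℕ, i < L → (stp d m r ω)^[i] x ∉ A) ∧
    (∀ i : ℕ, i < L → M ≤ |(((stp d m r ω)^[i] x : ℤ) : ℝ)| ∧
      |(((stp d m r ω)^[i] x : ℤ) : ℝ)| < Y) ∧
    (∀ i j : ℕ, i < j → j < L → (stp d m r ω)^[i] x ≠ (stp d m r ω)^[j] x) ∧
    (stp d m r ω)^[L] x ∈ S}

theorem main (d : ℕ) (m r : ℤ → ℤ) (μ : ℤ → Measure ℤ) [∀ x, IsProbabilityMeasure (μ x)]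
    (B : ℕ) (M Y : ℝ)
    (hB : ∀ x : ℤ, M ≤ |(x : ℝ)| → |(x : ℝ)| < Y → μ x {u : ℤ | (B : ℤ) < |u|} = 0)
    (S : Set ℤ) (L : ℕ) :
    ∀ (A : Finset ℤ) (v : ℤ → ℤ) (x : ℤ),
      (Measure.infinitePi μ) (Ev d m r M Y S L A v x) ≤
      (∏ a ∈ A, μ a {v a}) *
        ENNReal.ofReal ((Qx d m r (fun x u => (μ x).real {u}) B M Y)^[L]
          (S.indicator fun _ => 1) x) := by
  induction L with
  | zero =>
    intro A v x
    by_cases hx : x ∈ S
    · have hi : (Qx d m r (fun x u => (μ x).real {u}) B M Y)^[0]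
          (S.indicator fun _ => (1 : ℝ)) x = 1 := by
        show S.indicator (fun _ => (1 : ℝ)) x = 1
        exact Set.indicator_of_mem hx _
      rw [hi, ENNReal.ofReal_one, mul_one]
      have hsub : Ev d m r M Y S 0 A v x ⊆ Set.pi (A : Set ℤ) (fun a => {v a}) := by
        rintro ω ⟨h1, -, -, -, -⟩ a ha
        exact h1 a ha
      refine (measure_mono hsub).trans (le_of_eq ?_)
      rw [Measure.infinitePi_pi]
      intro i _
      exact measurableSet_singleton _
    · have he : Ev d m r M Y S 0 A v x = ∅ := by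
        ext ω
        simp only [Set.mem_empty_iff_false, iff_false]
        rintro ⟨-, -, -, -, h5⟩
        exact hx h5
      rw [he, measure_empty]
      exact zero_le
  | succ L ih =>
    intro A v x
    by_cases hx : M ≤ |(x : ℝ)| ∧ |(x : ℝ)| < Y
    swap
    · have he : Ev d m r M Y S (L + 1) A v x = ∅ := by
        ext ω
        simp only [Set.mem_empty_iff_false, iff_false]
        rintro ⟨-, -, h3, -, -⟩
        exact hx (h3 0 (Nat.succ_pos _))
      rw [he, measure_empty]
      exact zero_le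
    by_cases hxA : x ∈ A
    · have he : Ev d m r M Y S (L + 1) A v x = ∅ := by
        ext ω
        simp only [Set.mem_empty_iff_false, iff_false]
        rintro ⟨-, hA, -⟩
        exact hA 0 (Nat.succ_pos _) hxA
      rw [he, measure_empty]
      exact zero_le
    have hsub : Ev d m r M Y S (L + 1) A v x ⊆
        {ω | (B : ℤ) < |ω x|} ∪ ⋃ u ∈ Icc (-(B : ℤ)) B,
          Ev d m r M Y S L (insert x A) (Function.update v x u) (T d m r x + u) := by
      rintro ω ⟨h1, h2, h3, h4, h5⟩
      by_cases hb : (B : ℤ) < |ω x|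
      · exact Or.inl hb
      right
      have hb' := abs_le.1 (not_lt.1 hb)
      simp only [Set.mem_iUnion]
      have hs : ∀ i : ℕ, (stp d m r ω)^[i] (T d m r x + ω x) = (stp d m r ω)^[i + 1] x := by
        intro i
        rw [Function.iterate_succ_apply]; rfl
      refine ⟨ω x, Finset.mem_Icc.2 ⟨hb'.1, hb'.2⟩, ?_, ?_, ?_, ?_, ?_⟩
      · intro a ha
        rcases Finset.mem_insert.1 ha with rfl | ha
        · rw [Function.update_self]
        · rw [Function.update_of_ne (ne_of_mem_of_not_mem ha hxA)]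
          exact h1 a ha
      · intro i hi
        rw [hs, Finset.mem_insert, not_or]
        refine ⟨fun h => h4 0 (i + 1) (Nat.succ_pos _) (by omega) ?_, h2 (i + 1) (by omega)⟩
        rw [h]; rfl
      · intro i hi
        rw [hs]
        exact h3 (i + 1) (by omega)
      · intro i j hij hj
        rw [hs, hs]
        exact h4 (i + 1) (j + 1) (by omega) (by omega)
      · rw [hs]
        exact h5
    refine (measure_mono hsub).trans ?_
    refine (measure_union_le _ _).trans ?_
    have h0 : (Measure.infinitePi μ) {ω : ℤ → ℤ | (B : ℤ) < |ω x|} = 0 := by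
      have hp : {ω : ℤ → ℤ | (B : ℤ) < |ω x|} =
          Set.pi (({x} : Finset ℤ) : Set ℤ) (fun _ => {u : ℤ | (B : ℤ) < |u|}) := by
        ext ω
        simp
      rw [hp, Measure.infinitePi_pi]
      · rw [Finset.prod_singleton]
        exact hB x hx.1 hx.2
      · intro i _
        exact MeasurableSet.of_discrete
    rw [h0, zero_add]
    refine (measure_biUnion_finset_le _ _).trans ?_
    refine (Finset.sum_le_sum fun u _ => ih (insert x A) (Function.update v x u) (T d m r x + u)).trans ?_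
    have hQ : (Qx d m r (fun x u => (μ x).real {u}) B M Y)^[L + 1] (S.indicator fun _ => 1) x =
        ∑ u ∈ Icc (-(B : ℤ)) B, (μ x).real {u} *
          (Qx d m r (fun x u => (μ x).real {u}) B M Y)^[L] (S.indicator fun _ => 1)
            (T d m r x + u) := by
      rw [Function.iterate_succ_apply']
      conv_lhs => unfold Qx
      rw [if_pos hx]
      rfl
    rw [hQ, ENNReal.ofReal_sum_of_nonneg, Finset.mul_sum]
    · refine Finset.sum_le_sum fun u _ => le_of_eq ?_
      rw [Finset.prod_insert hxA, Function.update_self,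
        ENNReal.ofReal_mul measureReal_nonneg, ofReal_measureReal]
      have hpr : ∏ a ∈ A, μ a {Function.update v x u a} = ∏ a ∈ A, μ a {v a} := by
        refine Finset.prod_congr rfl fun a ha => ?_
        rw [Function.update_of_ne (ne_of_mem_of_not_mem ha hxA)]
      rw [hpr]
      ring
    · intro u _
      exact mul_nonneg measureReal_nonneg
        (iter_nonneg d m r _ (fun _ _ => measureReal_nonneg) B M Y S L _)

/-- **PRBx**: from the environment to the annealed chain. -/
theorem t_PRBx : S_PRBx := by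
  intro d m r μ hμ B M Y hB L S x
  have h := main d m r μ B M Y hB S L ∅ (fun _ => 0) x
  rw [Finset.prod_empty, one_mul] at h
  refine (measure_mono ?_).trans h
  rintro ω ⟨h1, h2, h3⟩
  exact ⟨fun a ha => absurd ha (Finset.notMem_empty a), fun i _ => Finset.notMem_empty _,
    h1, h2, h3⟩

end Pool.Agent.U770.DZ
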